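import Mathlib
import Pool.Agent.V11294.RP.Grd

/-!
# In every base, every large integer is a sum of boundedly many reversed primes
-/

namespace Pool.Agent.Results.MP_199216_nt.Finite

open Pool.Agent.V11294.RP

theorem result : ∀ b : ℕ, 2 ≤ b → ∃ K : ℕ, 2 ≤ K ∧ ∃ N₀ : ℕ, ∀ N : ℕ, N₀ ≤ N →
    ∃ l : List ℕ, l.length ≤ K ∧
      (∀ m ∈ l, ∃ p : ℕ, p.Prime ∧ m = Nat.ofDigits b (Nat.digits b p).reverse) ∧ l.sum = N := by
  intro b hb
  obtain ⟨C, hC, h⟩ := main_thm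
  obtain ⟨K, hK2, -, N0, hN0⟩ := h b hb
  exact ⟨K, hK2, N0, fun N hN => hN0 N hN⟩

end Pool.Agent.Results.MP_199216_nt.Finite
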